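import Mathlib

set_option autoImplicit false
set_option maxRecDepth 100000

namespace Pool.Agent.H.MP_954a1f_al

open MonoidAlgebra Module

/-- the alternating group of degree five, on sixty labels -/
structure S : Type where
  v : Fin 60
  deriving DecidableEq, Fintype

def tM : ℕ := 44588744411498772408057697234012825022207030155056243001291314626830328992726387741962652077080179857513116794124676225011270500854949548515319784722754733835822990351217189879370007180450447862084397746714543218118404454648523502404016505696788217567740903935567483820169475800248351210209457252033003294316505126707736563808267261018358803785051945511971527654629676777246097466264910295970409708473687891738042572352235617444211301448014562715825643399989445871638662466714539091093440557656864963271338136820205077781407612786301609057586487413070850733036237424366420586074576200274179683719596154766164304600916311891360435234634884074770670047304855696033208942898257273571805596746410997602720478127885084139920467858381585356379275300845244081501001416614063127148573377931515735509991944942541938533698731228223667022229955938927064304290708533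9506577025875796092775652936248759590413195841233487810575756995124369032337427507410174503363542875687837929483274647217856036307060602498168088854563535169556271927959253823638177052829693757981605262529774438741028387044318030007240492025508921438811100322976753019630779367486450355996484820435093822260795560089934394453367332594640473328319323855693872966283584760222338558330092732630677819527307719867724744050777366168858680414767348512147132679066080057957436314227898824821282684070074922956960882226587047993284700816047442306342300599517163579207533531345419569527536403751254607162477574044450686155041012623398699106478984591954917242720856760222832935980957661650521333382807270165395538227538018234894026101826713066271220903016213552259168101379813088455761291162591584542791565280259784607300171486353315078445225942900394127424757465829772792160882655126558087085174211708149521895137301737524639894583489539079386409444448213545628819378994774732983408923687349125505603122357392867529309247505783532705889310192054960602258767218674060550864124267654010675768683679061586696530832293276252541801177594497421964693751031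8552219763821252162434937343992076452795444639141231942742061039991471671971602337531193332614533188830123815557180317067534725287801783442927365480087868827599134570756960612515057244545387524948849065114966128091947471206244115471103887568765142475810133696640692384958613377809747534053386607978240004167826686461114481702088094090834011950210071433795492856643156977486021909655092777729896978326652658805813878721038330336469620884970515976254819413288402864547109247638322406828180868751189947597883461156182548567049312959958398737227069107148089233034866984669203710475395072315129141164580003291739388033571804990636979431595091783256778653105942573866024031977853160329679164942498580885944872559982314766618702892362749760181572349519876347789686923315823753533069402690724854669633163197826122787922924616652002808651814091189915963532585074957217435500729585822484256377304789244005352355855300606811028723352373685564327348818960907465449365633937751242625005539076423382684127149673004613850729962026841591878396115994034056612052996957357067301742959851112309313648767642912480242590720710567554855251170554071412253093352158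2249386313517998296530076715010622461896788075256270287145302973285554032693032494615332980248478659653026260202206048569521172403025772449132559028520343293342232027810336196709025219195466295284656283199254598651686121298185524474770259985581223087967997094594501200217182871393296024794196583397168961647486317281112125289462825236542291389471997714251400637935879803842078676474121026176756675913330352313444584017977992773716053376269595949373353653677301453634673405054983253726715146888066555678424257253967387025958621802171332550942248693444474446173254090852140281823484655224719593890115041140119354306291517220067462014000157420445663392197043071925666231858694234380670300722233766410916650955979714141268373295910326144860943683670822905314919752557172312267289773417939950560358703705156350854390649782063941559682318562105987531025976157728893739405479136736730541944067066303957852086255214527365110629192429434621168405348035488558309513974680228785841912662875589119384632763022864281289541058916650152137174932552103510568002727970435961207485344976918492891869311034553398516959242304085018640760175746574166739681886689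5656347610474167902830183331742706639481721423336433675509958426725955455530929694861155063896033041779460180305017675639409872464080784076228504654146690157616694651627256811323097460484348393903022246727570250925152597015772143470642210266862781181086311267935060517399683329495413229276729886429069533826572093537752571976365594873240256559087422272153531968787294286578977399753303495955005682595936798099374832430563870340276122361879648130596028831475446372655963552977894832525592242032831960538625226555930365658469603461696353384258378848910085787248180479178101111688469672643268103600967049987394809968299107471821113351146037103586362305258516934166165104386942712208855174157806454125955950321370412031214592648032580716544460749030708616504619015237930430613022107008016409718823518038727785378438159048252397474143889098893638957757044061324648774353641898846738066096940845318742148201256406756244808758829749676141867052974222534131833967871293635445356211663749813343065429670336412721307304132025853999071889055591233601523918266611818159015531178206388514356205862913207888703508859751807366608453485957297997819955794580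5868446893088599409442792443817298564811932923565827819321574041859940668331363155013582937840381643859626752823550643879926100609825130472780855231542481516707311980009666675648084873637724109118597078685175714772048880529437259238548294639856093313516755100926226832669503681173303571230909098687468121388024816138862304422007438602572411626016870919532194117799620047121281523443078037964890339820646705098280613125010431717713429842655434770631430875554279751143470654269517000813432896014255411883160322674946734166800490319781493669572509683035660778676272537814169273166344198753400545144333222490424795195401595513371125772116732816924836381995033837707041659000260417002144002273328076333619374347611913847571292695656009760592800824224051765716278550401553066918090576398823833673851604221004324529355097825878318219168813482407758222218027331673286922865299376048733532880484497867039498745261646191197123049111465253316486885070556165108490304535934375601230958005803703008776164937042771077925658527859529129482435463148999021067514871347987153789295768367870260289600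
def tI : ℕ := 2190611303187435778635711267411136857018965711893249168138973167502296764260424801246666585081265071783153792
def tP : ℕ := 172380032330644359268021688264155888551731595850691345551137043517565185578263787467298671805830371418946056191996687931076325275326041044446031772304582274599621110749385052162549557733230956854413434010922032487052646639637530230052506361306438078609544358173948003976

instance : Mul S := ⟨fun a b => ⟨⟨Nat.mod (Nat.land (Nat.shiftRight tM
  (Nat.mul 6 (Nat.add (Nat.mul 60 a.v.1) b.v.1))) 63) 60, Nat.mod_lt _ (by norm_num)⟩⟩⟩
instance : One S := ⟨⟨0⟩⟩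
instance : Inv S := ⟨fun a => ⟨⟨Nat.mod (Nat.land (Nat.shiftRight tI (Nat.mul 6 a.v.1)) 63) 60,
  Nat.mod_lt _ (by norm_num)⟩⟩⟩

def pm (a : S) (i : Fin 5) : Fin 5 := ⟨Nat.mod (Nat.land (Nat.shiftRight tP
  (Nat.mul 3 (Nat.add (Nat.mul 5 a.v.1) i.1))) 7) 5, Nat.mod_lt _ (by norm_num)⟩

lemma pm_mul : ∀ a b : S, ∀ i, pm (a * b) i = pm a (pm b i) := by decide +kernel
lemma pm_inj : ∀ a b : S, pm a 0 = pm b 0 → pm a 1 = pm b 1 → pm a 2 = pm b 2 → a = b := by
  decide +kernel

instance : Group S := Group.ofLeftAxioms
  (fun a b c => pm_inj _ _ (by simp [pm_mul]) (by simp [pm_mul]) (by simp [pm_mul]))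
  (by decide +kernel) (by decide +kernel)

lemma card_S : Fintype.card S = 60 := by decide +kernel

def lDa : List S := [⟨0⟩, ⟨6⟩, ⟨10⟩, ⟨15⟩, ⟨16⟩, ⟨22⟩, ⟨25⟩, ⟨27⟩, ⟨35⟩, ⟨38⟩, ⟨49⟩, ⟨50⟩, ⟨56⟩, ⟨58⟩]
def lEa : List S := [⟨4⟩, ⟨8⟩, ⟨10⟩, ⟨14⟩, ⟨15⟩, ⟨17⟩, ⟨22⟩, ⟨25⟩, ⟨29⟩, ⟨38⟩, ⟨40⟩, ⟨43⟩, ⟨44⟩, ⟨45⟩, ⟨47⟩, ⟨48⟩, ⟨49⟩, ⟨51⟩, ⟨52⟩, ⟨54⟩, ⟨57⟩, ⟨58⟩]
def lha : List S := [⟨4⟩, ⟨5⟩, ⟨7⟩, ⟨8⟩, ⟨10⟩, ⟨11⟩, ⟨12⟩, ⟨14⟩, ⟨18⟩, ⟨20⟩, ⟨23⟩, ⟨25⟩, ⟨27⟩, ⟨28⟩, ⟨30⟩, ⟨31⟩, ⟨32⟩, ⟨36⟩, ⟨37⟩, ⟨38⟩, ⟨43⟩, ⟨44⟩, ⟨45⟩, ⟨46⟩, ⟨47⟩]
def rpa : Fin 12 → S := ![⟨0⟩, ⟨1⟩, ⟨2⟩, ⟨3⟩, ⟨4⟩, ⟨5⟩, ⟨6⟩, ⟨7⟩, ⟨8⟩, ⟨9⟩, ⟨10⟩, ⟨11⟩]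
def lDb : List S := [⟨0⟩, ⟨3⟩, ⟨17⟩, ⟨19⟩, ⟨20⟩, ⟨23⟩, ⟨24⟩, ⟨26⟩, ⟨32⟩, ⟨37⟩, ⟨40⟩, ⟨44⟩, ⟨51⟩, ⟨57⟩]
def lEb : List S := [⟨4⟩, ⟨6⟩, ⟨7⟩, ⟨10⟩, ⟨13⟩, ⟨17⟩, ⟨18⟩, ⟨19⟩, ⟨23⟩, ⟨24⟩, ⟨25⟩, ⟨29⟩, ⟨31⟩, ⟨33⟩, ⟨35⟩, ⟨37⟩, ⟨40⟩, ⟨46⟩, ⟨47⟩, ⟨53⟩, ⟨57⟩, ⟨58⟩]
def lhb : List S := [⟨0⟩, ⟨2⟩, ⟨3⟩, ⟨4⟩, ⟨6⟩, ⟨7⟩, ⟨8⟩, ⟨12⟩, ⟨13⟩, ⟨15⟩, ⟨16⟩, ⟨17⟩, ⟨18⟩, ⟨20⟩, ⟨24⟩, ⟨25⟩, ⟨26⟩, ⟨28⟩, ⟨29⟩, ⟨31⟩, ⟨32⟩, ⟨34⟩, ⟨35⟩, ⟨36⟩, ⟨37⟩, ⟨38⟩, ⟨39⟩, ⟨46⟩]
def rpb : Fin 12 → S := ![⟨0⟩, ⟨1⟩, ⟨2⟩, ⟨3⟩, ⟨4⟩, ⟨5⟩, ⟨6⟩, ⟨7⟩, ⟨8⟩, ⟨9⟩, ⟨10⟩, ⟨11⟩]
def wds : List (List Bool) := [[], [true, true, false, false, false], [false, false, true, true, true], [true, true, false, false, false, false, true], [true, false, false, false, true], [true, false, true, true], [false, true, true, true, true, false], [true, true, true, false], [true, false, false], [false, true], [false, false, false, false, true, true], [false, true, true, true, false, false, false], [true, false, true], [true, false, false, false, false, true, true], [false, true, true, true, true, false, false], [false, false, false, true, true], [true], [true, true, true, false, false, false], [false, false,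 false, false], [false, true, true, true], [true, true, false, false, false, true], [true, true, false, false], [false, false, true, true, true, true], [true, true, true, true, false], [true, true, true, false, false], [false, false, false, true, true, true], [false], [false, false, true, true, true, true, false], [true, true, false, true], [false, true, true, true, false], [false, false, true], [true, false, false, false, true, true], [true, true], [true, true, true, false, false, false, true], [true, false, false, false, false], [true, false, true, true, true], [false, false, true, true], [true, true, false, false, false, false], [false, false, false, false, true], [true, false], [true, true, true, true, false, false], [true, false, false, false, true, true, true], [false, true, true, true, true], [false, false, false, true, true, true, false], [true, true, true, false, true], [true, true, true], [false, false, false], [true, true, false, false, false, true, true], [true, true, true, true], [true, false, false, false], [false, false, true, true, true, false], [true, false, false, false, false, true], [false, false, false,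 true], [false, true, true], [false, true, true, true, false, false], [true, true, false], [false, false], [true, true, true, true, false, true], [true, false, true, true, true, true], [false, true, true, true, false, false, false, true]]
def sx : S := ⟨16⟩
def sy : S := ⟨26⟩


def wv (l : List Bool) : S := (l.map fun b => cond b sx sy).prod

lemma wds_all : ∀ g : S, ∃ l ∈ wds, wv l = g := by decide +kernel

lemma gen (K : Subgroup S) (hx : sx ∈ K) (hy : sy ∈ K) (g : S) : g ∈ K := by
  obtain ⟨l, -, rfl⟩ := wds_all g
  refine K.list_prod_mem fun a ha => ?_
  obtain ⟨b, -, rfl⟩ := List.mem_map.mp ha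
  cases b
  · exact hy
  · exact hx

noncomputable def o {G : Type} [Group G] (g : G) : MonoidAlgebra (ZMod 2) G := single g 1

lemma o_mul {G : Type} [Group G] (g h : G) : o (g * h) = o g * o h := by
  simp [o, single_mul_single]
lemma o_one {G : Type} [Group G] : o (1 : G) = 1 := rfl

abbrev R : Type := MonoidAlgebra (ZMod 2) S

noncomputable def P (l : List S) : R := (l.map o).sum

lemma P_nil : P [] = 0 := rfl
lemma P_cons (g : S) (l : List S) : P (g :: l) = o g + P l := by simp [P]
lemma P_app (l m : List S) : P (l ++ m) = P l + P m := by simp [P]

def lm (l m : List S) : List S := l.flatMap fun a => m.map fun b => a * b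

lemma P_map (a : S) (m : List S) : P (m.map fun b => a * b) = o a * P m := by
  induction m with
  | nil => simp [P_nil]
  | cons b m ih => rw [List.map_cons, P_cons, P_cons, ih, o_mul, mul_add]

lemma P_lm (l m : List S) : P l * P m = P (lm l m) := by
  induction l with
  | nil => simp [lm, P_nil]
  | cons a l ih =>
    have : lm (a :: l) m = (m.map fun b => a * b) ++ lm l m := by simp [lm]
    rw [this, P_app, P_map, ← ih, P_cons, add_mul]

lemma P_coeff (l : List S) (g : S) : (P l).coeff g = (l.count g : ZMod 2) := by
  induction l with
  | nil => simp [P_nil]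
  | cons a l ih =>
    rw [P_cons, coeff_add, Finsupp.add_apply, ih, List.count_cons, o, coeff_single,
      Finsupp.single_apply]
    by_cases h : a = g <;> simp [h, add_comm]

lemma add_self (s : R) : s + s = 0 := by
  ext g
  simp [CharTwo.add_self_eq_zero]

lemma P_eq (l m : List S) (h : ∀ g, l.count g % 2 = m.count g % 2) : P l = P m := by
  ext g
  rw [P_coeff, P_coeff]
  exact (ZMod.natCast_eq_natCast_iff' _ _ 2).mpr (h g)

def cm {G : Type} [Group G] (y z : G) : G := z⁻¹ * y⁻¹ * z * y

noncomputable def Fz (y z : S) : R := o (z⁻¹ * y⁻¹) - o z⁻¹

lemma Fz_eq (y z : S) : Fz y z = P [z⁻¹ * y⁻¹, z⁻¹] := by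
  rw [Fz, P_cons, P_cons, P_nil, add_zero, sub_eq_iff_eq_add, add_assoc, add_self, add_zero]

noncomputable def Dn (y z : S) : ℕ → R
  | 0 => 1
  | n + 1 => Fz y ((cm y)^[n] z) * Dn y z n

lemma cert (y z : S) (lD lE lh : List S)
    (h1 : ∀ g, (lm [((cm y)^[4] z)⁻¹ * y⁻¹, ((cm y)^[4] z)⁻¹]
      (lm [((cm y)^[3] z)⁻¹ * y⁻¹, ((cm y)^[3] z)⁻¹]
      (lm [((cm y)^[2] z)⁻¹ * y⁻¹, ((cm y)^[2] z)⁻¹]
      (lm [((cm y)^[1] z)⁻¹ * y⁻¹, ((cm y)^[1] z)⁻¹] [z⁻¹ * y⁻¹, z⁻¹])))).count g % 2 =
        lD.count g % 2)
    (h2 : ∀ g, (lm lD lD).count g % 2 = lE.count g % 2)
    (h3 : ∀ g, (lm lE lh).count g % 2 =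
      [((cm y)^[4] z)⁻¹ * y⁻¹, ((cm y)^[4] z)⁻¹].count g % 2)
    (rp : Fin 12 → S)
    (h4 : ∀ h : S, ∃ j : Fin 12, ∃ i : Fin 5,
      h = rp j * (((cm y)^[4] z)⁻¹ * y⁻¹ * ((cm y)^[4] z)) ^ (i : ℕ)) :
    ∃ k : ℕ, 1 ≤ k ∧ ∃ U : Submodule (ZMod 2) R, finrank (ZMod 2) U ≤ 12 ∧
      ∀ a : R, a * ∑ l ∈ Finset.range k, Dn y z 5 ^ l ∈ U := by
  obtain ⟨D, hD⟩ : ∃ D, D = Dn y z 5 := ⟨_, rfl⟩
  obtain ⟨u, hu⟩ : ∃ u, u = (cm y)^[4] z := ⟨_, rfl⟩
  have e1 : D = P lD := by
    rw [hD]
    simp only [Dn, Fz_eq, mul_one, P_lm, Function.iterate_zero, id]
    exact P_eq _ _ h1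
  have e2 : D * D * P lh = Fz y u := by
    rw [e1, P_lm, P_eq _ _ h2, P_lm, Fz_eq, hu]
    exact P_eq _ _ h3
  have e3 : D = Fz y u * Dn y z 4 := by rw [hD, hu]; rfl
  have e4 : ∀ (n : ℕ) (b : R), b * D ^ n = 0 → b * Fz y u = 0 := by
    intro n
    induction n with
    | zero => intro b hb; simp at hb; simp [hb]
    | succ n ih =>
      intro b hb
      rw [pow_succ', ← mul_assoc] at hb
      have h5 := ih _ hb
      have h6 : b * D * D = 0 := by
        calc b * D * D = b * D * (Fz y u * Dn y z 4) := by rw [← e3]
          _ = 0 := by rw [← mul_assoc, h5, zero_mul]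
      rw [← e2, ← mul_assoc, ← mul_assoc, h6, zero_mul]
  have : Finite R := Module.finite_of_finite (ZMod 2)
  obtain ⟨i, j, hij, hp⟩ : ∃ i j : ℕ, i < j ∧ D ^ i = D ^ j := by
    obtain ⟨i, j, h5, h6⟩ := Finite.exists_ne_map_eq_of_infinite (fun n : ℕ => D ^ n)
    rcases lt_or_gt_of_ne h5 with h | h
    · exact ⟨i, j, h, h6⟩
    · exact ⟨j, i, h, h6.symm⟩
  obtain ⟨k, rfl⟩ := Nat.exists_eq_add_of_lt hij
  obtain ⟨g, hg⟩ : ∃ g, g = u⁻¹ * y⁻¹ * u := ⟨_, rfl⟩
  refine ⟨(k + 1) + (k + 1), by omega, LinearMap.ker (LinearMap.mulRight (ZMod 2) (o g - 1)),
    ?_, fun a => ?_⟩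
  · let f : LinearMap.ker (LinearMap.mulRight (ZMod 2) (o g - 1)) →ₗ[ZMod 2] (Fin 12 → ZMod 2) :=
      LinearMap.pi fun j => (Finsupp.lapply (rp j)).comp
        ((coeffLinearEquiv (ZMod 2)).toLinearMap.comp (Submodule.subtype _))
    have hf : Function.Injective f := by
      rw [injective_iff_map_eq_zero]
      rintro ⟨b, hb⟩ h
      have hb2 : b * o g = b := by
        rwa [LinearMap.mem_ker, LinearMap.mulRight_apply, mul_sub, mul_one, sub_eq_zero] at hb
      have hb3 : ∀ (t : S) (n : ℕ), b.coeff (t * g ^ n) = b.coeff t := by
        intro t n
        induction n with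
        | zero => simp
        | succ n ih =>
          rw [pow_succ, ← mul_assoc, ← ih]
          conv_lhs => rw [← hb2, o, coeff_mul_single_mul, mul_one]
      ext t
      obtain ⟨j, i, rfl⟩ := h4 t
      rw [← hu, ← hg]
      exact (hb3 _ _).trans (congrFun h j)
    simpa using LinearMap.finrank_le_finrank_of_injective hf
  · rw [← hD, LinearMap.mem_ker, LinearMap.mulRight_apply]
    have h5 : (a * ∑ l ∈ Finset.range (k + 1 + (k + 1)), D ^ l) * D ^ i = 0 := by
      rw [Finset.sum_range_add, mul_assoc, add_mul, Finset.sum_mul, Finset.sum_mul]
      have : ∀ l, D ^ (k + 1 + l) * D ^ i = D ^ l * D ^ i := fun l => by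
        conv_rhs => rw [hp]
        rw [← pow_add, ← pow_add]; congr 1; ring
      simp only [this, add_self, mul_zero]
    have h6 := e4 _ _ h5
    have h7 : o g - 1 = Fz y u * o u := by
      rw [Fz, sub_mul, ← o_mul, ← o_mul, inv_mul_cancel, o_one, hg]
    rw [h7, ← mul_assoc, h6, zero_mul]

lemma certa : ∃ k : ℕ, 1 ≤ k ∧ ∃ U : Submodule (ZMod 2) R, finrank (ZMod 2) U ≤ 12 ∧
    ∀ a : R, a * ∑ l ∈ Finset.range k, Dn sy sx 5 ^ l ∈ U :=
  cert sy sx lDa lEa lha (by decide +kernel) (by decide +kernel) (by decide +kernel) rpa
    (by decide +kernel)

lemma certb : ∃ k : ℕ, 1 ≤ k ∧ ∃ U : Submodule (ZMod 2) R, finrank (ZMod 2) U ≤ 12 ∧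
    ∀ a : R, a * ∑ l ∈ Finset.range k, Dn sx sy 5 ^ l ∈ U :=
  cert sx sy lDb lEb lhb (by decide +kernel) (by decide +kernel) (by decide +kernel) rpb
    (by decide +kernel)

lemma pera : (cm sy)^[5] sx = sx := by decide +kernel
lemma perb : (cm sx)^[5] sy = sy := by decide +kernel

end Pool.Agent.H.MP_954a1f_al
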