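import Mathlib

set_option autoImplicit false

namespace Pool.Agent.H.MP_954a1f_al

open Module Submodule

section
variable {k A : Type} [Field k] [Ring A] [Algebra k A] [FiniteDimensional k A]
variable {M : Type} [AddCommGroup M] [Module k M] [Module A M] [IsScalarTower k A M]
  [FiniteDimensional k M]

lemma smul_dim (Q : Submodule k A) (C : Submodule k M) :
    finrank k (Q • C : Submodule k M) ≤ finrank k Q * finrank k C := by
  let f : Q →ₗ[k] C →ₗ[k] M := LinearMap.mk₂ k (fun q c => (q : A) • (c : M))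
    (fun _ _ _ => by simp [add_smul]) (fun _ _ _ => by simp)
    (fun _ _ _ => by simp) (fun r q c => by
      simp only [Submodule.coe_smul]
      rw [← algebraMap_smul A r (c : M), ← mul_smul, ← Algebra.commutes, mul_smul,
        algebraMap_smul])
  have h : (Q • C : Submodule k M) ≤ LinearMap.range (TensorProduct.lift f) := by
    rw [Submodule.smul_le]
    intro q hq c hc
    exact ⟨(⟨q, hq⟩ : Q) ⊗ₜ (⟨c, hc⟩ : C), rfl⟩
  refine (Submodule.finrank_mono h).trans ((LinearMap.finrank_range_le _).trans ?_)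
  rw [Module.finrank_tensorProduct]

lemma sup_dim (B P : Submodule k A) (hPB : P ≤ B) (C V : Submodule k M) (h : P • C ≤ V) :
    finrank k (V ⊔ B • C : Submodule k M) ≤
      finrank k V + (finrank k B - finrank k P) * finrank k C := by
  obtain ⟨Q, hQ⟩ := P.exists_isCompl
  have h1 : P ⊔ Q ⊓ B = B := by
    rw [← sup_inf_assoc_of_le _ hPB, hQ.sup_eq_top, top_inf_eq]
  have h2 : P ⊓ (Q ⊓ B) = ⊥ := by rw [← inf_assoc, hQ.inf_eq_bot, bot_inf_eq]
  have h3 := Submodule.finrank_sup_add_finrank_inf_eq P (Q ⊓ B)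
  rw [h1, h2, finrank_bot] at h3
  have h4 : V ⊔ B • C = V ⊔ (Q ⊓ B) • C := by
    conv_lhs => rw [← h1, Submodule.sup_smul, ← sup_assoc, sup_eq_left.mpr h]
  rw [h4]
  refine (Submodule.finrank_add_le_finrank_add_finrank _ _).trans ?_
  have h5 := smul_dim (Q ⊓ B) C
  have h6 : finrank k B - finrank k P = finrank k (Q ⊓ B : Submodule k A) := by omega
  rw [h6]
  omega

omit [FiniteDimensional k A] [FiniteDimensional k M] in
lemma mul_smul' (P Q : Submodule k A) (C : Submodule k M) : (P * Q) • C = P • Q • C :=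
  Submodule.smul_assoc P Q C

end

theorem GS {k A : Type} [Field k] [Ring A] [Algebra k A] [FiniteDimensional k A]
    (B Ω C C' : Submodule k A) (w : Fin 2 → A × A) (K : Fin 2 → Submodule k A)
    (h1 : (1 : A) ∈ B) (hΩB : Ω * B ≤ B) (hBΩ : B * Ω ≤ Ω) (hC : B * C = ⊤)
    (hC2 : Ω * ⊤ ⊔ C = ⊤) (dC : finrank k C ≤ 60) (dA : 60 * finrank k B ≤ finrank k A)
    (dC' : finrank k C' ≤ 60) (d : A × A →ₗ[A] A)
    (hW : (LinearMap.range d).restrictScalars k ≤ B ⊔ B * C')
    (hΩW : Ω * B ≤ (LinearMap.range d).restrictScalars k)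
    (hC'W : B * C' ≤ (LinearMap.range d).restrictScalars k)
    (hker : ∀ v, d v = 0 → ∃ a b : A, v = a • w 0 + b • w 1)
    (hK : ∀ i, ∀ a ∈ K i, a • w i ∈ Ω • (⊤ : Submodule k (A × A)))
    (hΩK : ∀ i, Ω * ⊤ ≤ K i) (dK : ∀ i, finrank k A ≤ finrank k (K i) + 12)
    (hne : ¬ B ≤ Ω * B) : False := by
  have hPB : ∀ j : ℕ, Ω ^ j * B ≤ B := by
    intro j
    induction j with
    | zero => simp
    | succ j ih => rw [pow_succ', mul_assoc]; exact (mul_le_mul_right ih Ω).trans hΩB
  have hPP : ∀ j : ℕ, Ω ^ (j + 1) * B ≤ Ω ^ j * B := fun j => by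
    rw [pow_succ, mul_assoc]; exact mul_le_mul_right hΩB _
  have hΩj : ∀ j : ℕ, Ω ^ j ≤ B := fun j => by
    refine le_trans ?_ (hPB j)
    conv_lhs => rw [← mul_one (Ω ^ j)]
    exact mul_le_mul_right (Submodule.one_le.mpr h1) _
  obtain ⟨c, hc⟩ : ∃ c : ℕ → ℕ, ∀ j, c j = finrank k B - finrank k (Ω ^ j * B : Submodule k A) :=
    ⟨_, fun _ => rfl⟩
  have hcm : ∀ j, c j ≤ c (j + 1) := fun j => by
    have := Submodule.finrank_mono (hPP j)
    rw [hc, hc]; omega
  let dk : A × A →ₗ[k] A := d.restrictScalars k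
  have key : ∀ j, 36 * c (j + 1) ≤ c (j + 2) + 120 * c j := by
    intro j
    obtain ⟨Vj, hVj⟩ : ∃ Vj : Submodule k (A × A), Vj = Ω ^ (j + 1) • ⊤ := ⟨_, rfl⟩
    have hmap : ∀ U : Submodule k A, U ≤ (LinearMap.range d).restrictScalars k →
        Ω ^ (j + 1) * U ≤ Vj.map dk := by
      intro U hU
      rw [Submodule.mul_le]
      intro a ha u hu
      obtain ⟨v, rfl⟩ := hU hu
      exact ⟨a • v, hVj ▸ Submodule.smul_mem_smul ha trivial, by simp [dk]⟩
    have e1 : finrank k Vj ≤ finrank k (Ω ^ (j + 1) * B : Submodule k A) * 120 := by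
      have hCV : (⊤ : Submodule k (A × A)) = B • C.prod C := by
        refine le_antisymm ?_ le_top
        rintro ⟨a, b⟩ -
        have ha : ∀ a ∈ B * C, ((a, 0) : A × A) ∈ B • C.prod C ∧ ((0, a) : A × A) ∈ B • C.prod C := by
          intro a ha
          refine Submodule.mul_induction_on ha (fun m hm n hn => ⟨?_, ?_⟩) (fun x y hx hy => ⟨?_, ?_⟩)
          · simpa using Submodule.smul_mem_smul hm (show ((n, 0) : A × A) ∈ C.prod C from ⟨hn, C.zero_mem⟩)
          · simpa using Submodule.smul_mem_smul hm (show ((0, n) : A × A) ∈ C.prod C from ⟨C.zero_mem, hn⟩)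
          · simpa using Submodule.add_mem _ hx.1 hy.1
          · simpa using Submodule.add_mem _ hx.2 hy.2
        simpa using Submodule.add_mem _ (ha a (hC ▸ trivial)).1 (ha b (hC ▸ trivial)).2
      rw [hVj, hCV, ← mul_smul']
      refine (smul_dim _ _).trans (Nat.mul_le_mul_left _ ?_)
      rw [LinearMap.prod_eq_sup_map]
      have := Submodule.finrank_add_le_finrank_add_finrank (C.map (LinearMap.inl k A A))
        (C.map (LinearMap.inr k A A))
      have := Submodule.finrank_map_le (LinearMap.inl k A A) C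
      have := Submodule.finrank_map_le (LinearMap.inr k A A) C
      omega
    have e2 : ∀ (i : Fin 2) (V : Submodule k (A × A)), Vj ≤ V → ∃ V' : Submodule k (A × A),
        V ≤ V' ∧ (∀ a : A, a • w i ∈ V') ∧
          finrank k V' ≤ finrank k V + (12 * c (j + 1) + 60 * c j) := by
      intro i V hV
      obtain ⟨C1, hC1⟩ := (K i).exists_isCompl
      have d1 := Submodule.finrank_add_eq_of_isCompl hC1
      have d2 := dK i
      have d3 : finrank k (C ⊓ K i : Submodule k A) ≤ 60 :=
        (Submodule.finrank_mono inf_le_left).trans dC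
      let φ : A →ₗ[k] A × A := (LinearMap.toSpanSingleton A (A × A) (w i)).restrictScalars k
      have hφ : ∀ a, φ a = a • w i := fun _ => rfl
      have t1 : (⊤ : Submodule k A) = (C1 ⊔ C ⊓ K i) ⊔ Ω * ⊤ := by
        rw [sup_assoc, sup_comm (C ⊓ K i), ← sup_inf_assoc_of_le _ (hΩK i), hC2, top_inf_eq,
          sup_comm, hC1.sup_eq_top]
      have t2 : ∀ n : ℕ, (⊤ : Submodule k A) ≤ B * (C1 ⊔ C ⊓ K i) ⊔ Ω ^ n * ⊤ := by
        intro n
        induction n with
        | zero => simp
        | succ n ih =>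
          refine ih.trans (sup_le le_sup_left ?_)
          conv_lhs => rw [t1, Submodule.mul_sup, ← mul_assoc, ← pow_succ]
          exact sup_le_sup_right (mul_le_mul_left (hΩj n) _) _
      have s1 := sup_dim B _ (hPB (j + 1)) (C1.map φ) V (by
        refine le_trans ?_ hV
        rw [hVj, mul_smul']
        exact Submodule.smul_mono le_rfl le_top)
      have s2 := sup_dim B _ (hPB j) ((C ⊓ K i).map φ) (V ⊔ B • C1.map φ) (by
        refine le_trans ?_ (hV.trans le_sup_left)
        have : (C ⊓ K i).map φ ≤ Ω • ⊤ := by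
          rintro _ ⟨a, ha, rfl⟩
          exact hK i a ha.2
        refine (Submodule.smul_mono le_rfl this).trans ?_
        rw [hVj, ← mul_smul', mul_assoc, pow_succ]
        exact Submodule.smul_mono_left (mul_le_mul_right hBΩ _))
      refine ⟨V ⊔ B • C1.map φ ⊔ B • (C ⊓ K i).map φ, le_sup_left.trans le_sup_left, ?_, ?_⟩
      · intro a
        have ha := t2 (j + 1) (Submodule.mem_top (x := a))
        suffices hh : B * (C1 ⊔ C ⊓ K i) ⊔ Ω ^ (j + 1) * ⊤ ≤
            Submodule.comap φ (V ⊔ B • C1.map φ ⊔ B • (C ⊓ K i).map φ) from hh ha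
        rw [Submodule.mul_sup]
        refine sup_le (sup_le ?_ ?_) ?_ <;> rw [Submodule.mul_le] <;> intro m hm n hn <;>
          rw [Submodule.mem_comap, hφ, mul_smul]
        · exact Submodule.mem_sup_left (Submodule.mem_sup_right
            (Submodule.smul_mem_smul hm ⟨n, hn, rfl⟩))
        · exact Submodule.mem_sup_right (Submodule.smul_mem_smul hm ⟨n, hn, rfl⟩)
        · exact Submodule.mem_sup_left (Submodule.mem_sup_left
            (hV (hVj ▸ Submodule.smul_mem_smul hm trivial)))
      · have m1 := Submodule.finrank_map_le φ C1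
        have m2 := Submodule.finrank_map_le φ (C ⊓ K i)
        rw [← hc] at s1 s2
        have n1 : c (j + 1) * finrank k (C1.map φ) ≤ c (j + 1) * 12 :=
          Nat.mul_le_mul_left _ (by omega)
        have n2 : c j * finrank k ((C ⊓ K i).map φ) ≤ c j * 60 :=
          Nat.mul_le_mul_left _ (by omega)
        omega
    obtain ⟨V1, a1, a2, a3⟩ := e2 0 Vj le_rfl
    obtain ⟨V2, b1, b2, b3⟩ := e2 1 V1 a1
    have e3 : Vj ⊔ LinearMap.ker dk ≤ V2 := by
      refine sup_le (a1.trans b1) fun v hv => ?_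
      obtain ⟨a, b, rfl⟩ := hker v hv
      exact V2.add_mem (b1 (a2 a)) (b2 b)
    have e4 := Submodule.finrank_mono e3
    have e5 := LinearMap.finrank_range_add_finrank_ker dk
    have e6 : finrank k (Vj.map dk) + finrank k (LinearMap.ker dk) =
        finrank k (Vj ⊔ LinearMap.ker dk : Submodule k (A × A)) := by
      have := LinearMap.finrank_range_add_finrank_ker (dk.domRestrict (Vj ⊔ LinearMap.ker dk))
      rw [LinearMap.range_domRestrict, Submodule.map_sup, LinearMap.ker_domRestrict,
        (Submodule.comapSubtypeEquivOfLe le_sup_right).finrank_eq] at this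
      have h0 : (LinearMap.ker dk).map dk = ⊥ := by
        rw [eq_bot_iff]; rintro _ ⟨v, hv, rfl⟩; exact hv
      rwa [h0, sup_bot_eq] at this
    have s1 := sup_dim B _ (hPB (j + 2)) (1 : Submodule k A) (Vj.map dk) (by
      rw [smul_eq_mul, mul_one, pow_succ, mul_assoc]
      exact hmap _ hΩW)
    have s2 := sup_dim B _ (hPB (j + 1)) C' (Vj.map dk ⊔ B • (1 : Submodule k A)) (by
      rw [smul_eq_mul, mul_assoc]
      exact (hmap _ hC'W).trans le_sup_left)
    have s3 : LinearMap.range dk ≤ Vj.map dk ⊔ B • (1 : Submodule k A) ⊔ B • C' := by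
      refine le_trans hW (sup_le_sup ?_ le_rfl)
      rw [smul_eq_mul, mul_one]; exact le_sup_right
    have s4 := Submodule.finrank_mono s3
    have s5 : finrank k (1 : Submodule k A) ≤ 1 := by
      rw [Submodule.one_eq_span]
      exact (finrank_span_le_card _).trans (by simp)
    rw [← hc] at s1 s2
    have n1 : c (j + 2) * finrank k (1 : Submodule k A) ≤ c (j + 2) * 1 :=
      Nat.mul_le_mul_left _ s5
    have n2 : c (j + 1) * finrank k C' ≤ c (j + 1) * 60 := Nat.mul_le_mul_left _ dC'
    rw [Module.finrank_prod] at e5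
    have n3 := hc (j + 1)
    have n4 := Submodule.finrank_mono (hPB (j + 1))
    omega
  have c0 : c 0 = 0 := by rw [hc, pow_zero, one_mul, Nat.sub_self]
  have c1 : 1 ≤ c 1 := by
    have := Submodule.finrank_lt_finrank_of_lt (lt_of_le_not_ge hΩB hne)
    rw [hc, pow_one]; omega
  have grow : ∀ j, 30 * c j ≤ c (j + 1) ∧ j + 1 ≤ c (j + 1) := by
    intro j
    induction j with
    | zero => rw [c0, zero_add]; omega
    | succ j ih => have := key j; rw [show j + 1 + 1 = j + 2 from rfl]; omega
  have := (grow (finrank k B)).2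
  rw [hc] at this
  omega

end Pool.Agent.H.MP_954a1f_al
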